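import Mathlib
import Pool.Agent.Lib.MP_5453bf_gt.Final

/-!
# `ℚ`-acyclic complexes with prescribed torsion and few vertices

For every `d ≥ 2` there is a constant `C` such that every nontrivial finite abelian group `G` is
isomorphic to `H_{d-1}(X; ℤ)` for some `d`-dimensional `ℚ`-acyclic simplicial complex `X` with at
most `C (log |G|)^(1/d)` vertices.

Outline of the proof.  Let `X` have complete `(d-1)`-skeleton, a vertex `0`, and let its `d`-faces
be the cones `{0} ∪ τ` over all `d`-sets `τ` of other vertices outside a family `R`, and a family
`S` of `(d+1)`-sets not containing `0`, with `|S| = |R|`.  Then `H_{d-1}(X)` is the cokernel of the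
square matrix `R × S` cut out of the boundary matrix, and `X` is `ℚ`-acyclic as soon as this
cokernel is finite.  We write `G` as a product of cyclic groups, put the binary digits of their
orders on a line, and realise doubling and adding by two constant size gadgets made of transversals
of windows of length `d + 1` of a long strip.  Finally the strip, which has about `log |G|` columns,
is folded onto `O((log |G|)^(1/d))` vertices: a vertex in column `t` is replaced by its class
modulo `2(d+1)` and modulo the `(t mod (d+1))`-th of `d + 1` pairwise coprime moduli of size about
`(log |G|)^(1/d)`.  By the Chinese remainder theorem, `d` of these classes determine the position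
of a window, so the folding creates no new incidences.
-/

set_option autoImplicit false

namespace Pool.Agent.Results.MP_5453bf_gt.PrescribedTorsion

open Pool.Agent.Lib.MP_5453bf_gt

universe u

/-- For every `d ≥ 2` there is a constant `C` such that every nontrivial finite abelian group `G`
is isomorphic to the integral homology `H_{d-1}(X)` of a `d`-dimensional `ℚ`-acyclic simplicial
complex `X` on `n ≤ C (log |G|)^(1/d)` vertices. -/
theorem result (d : ℕ) (hd : 2 ≤ d) : ∃ C : ℝ, ∀ (G : Type u) [AddCommGroup G] [Finite G]
    [Nontrivial G], ∃ (n : ℕ) (X : Cpx n), X.HasDim d ∧ X.QAcyclic ∧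
      Nonempty (X.H ℤ d ≃+ G) ∧ (n : ℝ) ≤ C * (Real.log (Nat.card G)) ^ ((1 : ℝ) / d) :=
  main d hd

end Pool.Agent.Results.MP_5453bf_gt.PrescribedTorsion
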